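import Pool.Agent.N441.GP.DD
import Pool.Agent.N275.GP.Base

set_option autoImplicit false

/-! # Project QB, job SHJ: the core, without the board -/

namespace Pool.Agent.V5helper11.QB

open Complex
open Pool.Agent.W780.PG (IsConvexPolygon)
open Pool.Agent.N275.GP
open Pool.Agent.N441.GP (tg_sin tg_cos tg_add_lt tl_at nu_norm co_succ)
open scoped Real

/-- angles add up -/
theorem tg_add (u v w : ℂ) (hu : ‖u‖ = 1) (hv : ‖v‖ = 1) (hw : ‖w‖ = 1) (h1 : 0 < cr u v)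
    (h2 : 0 < cr v w) (h3 : 0 < cr u w) : tg u w = tg u v + tg v w := by
  have a1 := tg_add_lt u v w hu hv hw h1 h2 h3
  have a2 := tg_pos u v
  have a3 := tg_pos v w
  have a4 := tg_pos u w
  have a5 := tg_lt_pi u w
  apply Real.injOn_cos ⟨a4.le, a5.le⟩ ⟨by linarith, a1.le⟩
  rw [Real.cos_add, tg_cos u w hu hw h3, tg_cos u v hu hv h1, tg_cos v w hv hw h2,
    tg_sin u v hu hv h1, tg_sin v w hv hw h2]
  have e : ip u v * ip v w - cr u v * cr v w = ip u w * ip v v := by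
    simp only [ip, cr]; ring
  rw [e, ip_self, hv]
  ring

variable {n : ℕ} {q : Fin (n + 3) → ℂ}

theorem two_eq (a : Fin (n + 3)) : a + 2 = a + 1 + 1 := by
  rw [add_assoc]
  congr 1

theorem three_eq (a : Fin (n + 3)) : a + 3 = a + 1 + 1 + 1 := by
  rw [add_assoc, add_assoc]
  congr 1

theorem tl_two (hq : IsConvexPolygon q) (a : Fin (n + 3)) :
    tl q a (a + 1) (a + 1 + 1) = ln q (a + 1) := by
  have c1 := cr_next hq a
  have c2 := cr_next hq (a + 1)
  rw [tl_at hq a (a + 1) (a + 1 + 1) c1.ne' c2.ne' (q (a + 1 + 1)) (co_succ hq (a + 1)).symm]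
  have h0 : co q (a + 1 + 1) - ip (nu q (a + 1 + 1)) (q (a + 1 + 1)) = 0 := sub_self _
  rw [h0, zero_div, add_zero]
  have e3 : co q a - ip (nu q a) (q (a + 1 + 1)) = ln q (a + 1) * cr (nu q a) (nu q (a + 1)) := by
    rw [co_succ hq a, next hq (a + 1), ip_add, ip_smul, ip_I']
    ring
  rw [e3, mul_div_cancel_right₀ _ c1.ne']

/-- the three cases -/
theorem shj_core (S : Finset (Fin (n + 3))) (a b j : Fin (n + 3)) (hq : IsConvexPolygon q)
    (sh : Sh (nu q) a b) (bt : Bt a j b)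
    (typ : (b = a + 2 ∧ j = a + 1) ∨
      (b = a + 3 ∧ j = a + 2 ∧ a + 1 ∈ S) ∨ (b = a + 3 ∧ j = a + 1 ∧ a + 2 ∈ S)) :
    (b = a + 2 ∧ j = a + 1 ∧ tg (nu q a) (nu q j) = tg (nu q (j - 1)) (nu q j) ∧
      tg (nu q j) (nu q b) = tg (nu q (j + 1 - 1)) (nu q (j + 1)) ∧ tl q a j b = ln q j) ∨
    (∃ i ∈ S, i + 1 = j ∧ tg (nu q a) (nu q j) = tg (nu q (i - 1)) (nu q i) +
        tg (nu q (i + 1 - 1)) (nu q (i + 1)) ∧
      tg (nu q j) (nu q b) = tg (nu q (j + 1 - 1)) (nu q (j + 1))) ∨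
    (∃ i ∈ S, j + 1 = i ∧ tg (nu q a) (nu q j) = tg (nu q (j - 1)) (nu q j) ∧
      tg (nu q j) (nu q b) = tg (nu q (i - 1)) (nu q i) + tg (nu q (i + 1 - 1)) (nu q (i + 1))) := by
  rcases typ with ⟨hb, hj⟩ | ⟨hb, hj, hi⟩ | ⟨hb, hj, hi⟩
  · left
    refine ⟨hb, hj, ?_, ?_, ?_⟩
    · rw [hj, add_sub_cancel_right]
    · rw [add_sub_cancel_right, hb, hj, two_eq]
    · rw [hb, hj, two_eq]; exact tl_two hq a
  · right; left
    refine ⟨a + 1, hi, by rw [hj, two_eq], ?_, ?_⟩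
    · rw [add_sub_cancel_right, add_sub_cancel_right, ← two_eq, ← hj]
      have h1 := sh_left hq sh bt
      have h2 := cr_next hq a
      have h3 := cr_next hq (a + 1)
      rw [← two_eq, ← hj] at h3
      exact tg_add _ _ _ (nu_norm hq _) (nu_norm hq _) (nu_norm hq _) h2 h3 h1
    · rw [add_sub_cancel_right, hb, hj, three_eq, two_eq a]
  · right; right
    refine ⟨a + 2, hi, by rw [hj, two_eq], ?_, ?_⟩
    · rw [hj, add_sub_cancel_right]
    · rw [two_eq, add_sub_cancel_right, add_sub_cancel_right, ← three_eq, ← hb, ← hj]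
      have h1 := sh_right hq sh bt
      have h2 := cr_next hq j
      have h3 := cr_next hq (j + 1)
      rw [hj, ← three_eq, ← hb] at h3
      rw [hj] at h1 h2 ⊢
      exact tg_add _ _ _ (nu_norm hq _) (nu_norm hq _) (nu_norm hq _) h2 h3 h1

end Pool.Agent.V5helper11.QB
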