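import Pool.Agent.V5helper71.QB.Stm2
import Pool.Agent.V5helper11.QB.SHJcore

set_option autoImplicit false

/-! # Project QB, job SHJ -/

namespace Pool.Agent.V5helper11.QB

open Pool.Agent.V5helper71.QB

theorem t_SHJ : S_SHJ := by
  intro m q S a b j hq E
  have typ := E.typ
  have := shj_core S a b j hq E.sh E.bt (by
    rcases typ with ⟨h1, h2⟩ | ⟨h1, h2, h3, -⟩ | ⟨h1, h2, h3, -⟩
    · exact Or.inl ⟨h1, h2⟩
    · exact Or.inr (Or.inl ⟨h1, h2, h3⟩)
    · exact Or.inr (Or.inr ⟨h1, h2, h3⟩))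
  exact this

end Pool.Agent.V5helper11.QB
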